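import Pool.Agent.T2h14.FD.Stm

/-! Task REG of the project FD (helper85). -/

set_option autoImplicit false

open MvPowerSeries IsLocalRing
open scoped TensorProduct

namespace Pool.Agent.T2h14.FD

namespace REGS

variable {k : Type} [Field k] {n : ℕ}

theorem mem_max {m : ℕ} {f : Rn m k} (h : constantCoeff f = 0) : f ∈ maximalIdeal (Rn m k) := by
  rw [mem_maximalIdeal, mem_nonunits_iff, isUnit_iff_constantCoeff, h]
  exact not_isUnit_zero

/-- the new coordinates -/
noncomputable def yy (c : Fin n → k) (i : Fin (n + 1)) : Rn (n + 1) k :=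
  Fin.cases (X 0) (fun j => X j.succ + C (c j) * X 0) i

theorem yy_zero (c : Fin n → k) : yy c 0 = X 0 := rfl

theorem yy_succ (c : Fin n → k) (j : Fin n) : yy c j.succ = X j.succ + C (c j) * X 0 := rfl

theorem yy_mem (c : Fin n → k) (i : Fin (n + 1)) : yy c i ∈ maximalIdeal (Rn (n + 1) k) := by
  apply mem_max
  refine Fin.cases ?_ (fun j => ?_) i
  · rw [yy_zero]; simp
  · rw [yy_succ]; simp

theorem theta (hC : COMM) (hE : EVAL) (hU : UNIQ) (c : Fin n → k) :
    ∃ θ : Rn (n + 1) k ≃+* Rn (n + 1) k, (∀ a, θ (C a) = C a) ∧ ∀ i, θ (X i) = yy c i := by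
  have := hC k (n + 1)
  obtain ⟨E, h1, h2, _⟩ := hE k (Rn (n + 1) k) (maximalIdeal _) (n + 1) C (yy c) (yy_mem c)
  obtain ⟨E', h1', h2', _⟩ := hE k (Rn (n + 1) k) (maximalIdeal _) (n + 1) C (yy (-c))
    (yy_mem (-c))
  have hid : ∀ (E E' : Rn (n + 1) k →+* Rn (n + 1) k) (c : Fin n → k), (∀ a, E (C a) = C a) →
      (∀ i, E (X i) = yy c i) → (∀ a, E' (C a) = C a) → (∀ i, E' (X i) = yy (-c) i) →
      E'.comp E = RingHom.id _ := by
    intro E E' c h1 h2 h1' h2'
    refine (hU k (Rn (n + 1) k) (maximalIdeal _) (n + 1) (RingHom.id _) (fun i => ?_)).2 _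
      (fun a => ?_) fun i => ?_
    · exact mem_max (by simp)
    · rw [RingHom.comp_apply, h1, h1']; rfl
    · rw [RingHom.comp_apply, h2, RingHom.id_apply]
      refine Fin.cases ?_ (fun j => ?_) i
      · rw [yy_zero, h2', yy_zero]
      · rw [yy_succ, map_add, map_mul, h2', h2', h1', yy_zero, yy_succ, Pi.neg_apply, map_neg]
        ring
  refine ⟨RingEquiv.ofRingHom E E' ?_ (hid E E' c h1 h2 h1' h2'), fun a => h1 a, fun i => h2 i⟩
  refine hid E' E (-c) h1' h2' h1 fun i => ?_
  rw [neg_neg]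
  exact h2 i

/-- the restriction to a line -/
noncomputable def rl : Rn (n + 1) k →+* PowerSeries k :=
  (PowerSeries.map (constantCoeff (σ := Fin n) (R := k))).comp
    ((finSuccEquiv k n).toRingEquiv : Rn (n + 1) k →+* PowerSeries (Rn n k))

theorem rl_apply (f : Rn (n + 1) k) :
    rl f = PowerSeries.map (constantCoeff (σ := Fin n) (R := k)) (finSuccEquiv k n f) := rfl

theorem rl_C (a : k) : rl (C a : Rn (n + 1) k) = PowerSeries.C a := by
  rw [rl_apply, finSuccEquiv_C, PowerSeries.map_C, constantCoeff_C]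

theorem rl_zero : rl (X 0 : Rn (n + 1) k) = PowerSeries.X := by
  rw [rl_apply, finSuccEquiv_X_zero, PowerSeries.map_X]

theorem rl_succ (j : Fin n) : rl (X j.succ : Rn (n + 1) k) = 0 := by
  rw [rl_apply, finSuccEquiv_X_succ, PowerSeries.map_C, constantCoeff_X, map_zero]

theorem rl_yy (c : Fin n → k) (i : Fin (n + 1)) :
    rl (yy c i) = PowerSeries.C (Fin.cases (1 : k) c i) * PowerSeries.X := by
  refine Fin.cases ?_ (fun j => ?_) i
  · rw [yy_zero, rl_zero, Fin.cases_zero, map_one, one_mul]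
  · rw [yy_succ, map_add, map_mul, rl_succ, rl_C, rl_zero, Fin.cases_succ, zero_add]

/-- the exponents of degree `d` -/
noncomputable def Ad (n d : ℕ) : Finset (Fin (n + 1) →₀ ℕ) :=
  Finset.finsuppAntidiag Finset.univ d

theorem mem_Ad {d : ℕ} {α : Fin (n + 1) →₀ ℕ} : α ∈ Ad n d ↔ α.degree = d := by
  unfold Ad
  rw [Finset.mem_finsuppAntidiag, Finsupp.degree_eq_sum]
  simp

/-- the homogeneous part -/
noncomputable def hp (δ : Rn (n + 1) k) (d : ℕ) : MvPolynomial (Fin (n + 1)) k :=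
  ∑ α ∈ Ad n d, MvPolynomial.monomial α (coeff α δ)

theorem coeff_hp (δ : Rn (n + 1) k) (d : ℕ) (α : Fin (n + 1) →₀ ℕ) :
    coeff α (hp δ d : Rn (n + 1) k) = if α.degree = d then coeff α δ else 0 := by
  classical
  rw [MvPolynomial.coeff_coe]
  unfold hp
  rw [MvPolynomial.coeff_sum]
  simp only [MvPolynomial.coeff_monomial, Finset.sum_ite_eq', mem_Ad]

/-- the dehomogenization -/
noncomputable def dh (δ : Rn (n + 1) k) (d : ℕ) : MvPolynomial (Fin n) k :=
  ∑ α ∈ Ad n d, MvPolynomial.monomial α.tail (coeff α δ)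

theorem dh_ne {δ : Rn (n + 1) k} {α : Fin (n + 1) →₀ ℕ} (h : coeff α δ ≠ 0) :
    dh δ α.degree ≠ 0 := by
  classical
  intro h0
  apply h
  have h1 : MvPolynomial.coeff α.tail (dh δ α.degree) = coeff α δ := by
    unfold dh
    rw [MvPolynomial.coeff_sum, Finset.sum_eq_single α]
    · rw [MvPolynomial.coeff_monomial, if_pos rfl]
    · intro β hβ hne
      rw [MvPolynomial.coeff_monomial, if_neg]
      intro ht
      apply hne
      rw [mem_Ad] at hβ
      have h2 : ∀ γ : Fin (n + 1) →₀ ℕ, γ.degree = γ 0 + γ.tail.degree := by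
        intro γ
        rw [Finsupp.degree_eq_sum, Finsupp.degree_eq_sum, Fin.sum_univ_succ]
        rfl
      rw [h2, h2, ht] at hβ
      rw [← Finsupp.cons_tail β, ← Finsupp.cons_tail α, ht]
      congr 1
      omega
    · intro hα
      exact absurd (mem_Ad.2 rfl) hα
  rw [← h1, h0, MvPolynomial.coeff_zero]

/-- the value of the homogeneous part on the line -/
theorem val_hp (δ : Rn (n + 1) k) (d : ℕ) (c : Fin n → k) (E : Rn (n + 1) k →+* PowerSeries k)
    (h1 : ∀ a, E (C a) = PowerSeries.C a)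
    (h2 : ∀ i, E (X i) = PowerSeries.C (Fin.cases (1 : k) c i) * PowerSeries.X) :
    E (hp δ d : Rn (n + 1) k) = PowerSeries.C (MvPolynomial.eval c (dh δ d)) *
      PowerSeries.X ^ d := by
  have h3 : ∀ P : MvPolynomial (Fin (n + 1)) k, E (P : Rn (n + 1) k) =
      MvPolynomial.eval₂Hom PowerSeries.C
        (fun i => PowerSeries.C (Fin.cases (1 : k) c i) * PowerSeries.X) P := by
    intro P
    have h4 : E.comp MvPolynomial.coeToMvPowerSeries.ringHom = MvPolynomial.eval₂Hom PowerSeries.C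
        (fun i => PowerSeries.C (Fin.cases (1 : k) c i) * PowerSeries.X) := by
      apply MvPolynomial.ringHom_ext
      · intro a
        rw [RingHom.comp_apply, MvPolynomial.coe_eval₂Hom, MvPolynomial.eval₂_C]
        change E ((MvPolynomial.C a : MvPolynomial (Fin (n + 1)) k) : Rn (n + 1) k) = _
        rw [MvPolynomial.coe_C, h1]
      · intro i
        rw [RingHom.comp_apply, MvPolynomial.coe_eval₂Hom, MvPolynomial.eval₂_X]
        change E ((MvPolynomial.X i : MvPolynomial (Fin (n + 1)) k) : Rn (n + 1) k) = _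
        rw [MvPolynomial.coe_X, h2]
    exact RingHom.congr_fun h4 P
  rw [h3]
  unfold hp dh
  rw [map_sum, map_sum, map_sum, Finset.sum_mul]
  refine Finset.sum_congr rfl fun α hα => ?_
  rw [mem_Ad] at hα
  rw [MvPolynomial.coe_eval₂Hom, MvPolynomial.eval₂_monomial, MvPolynomial.eval_monomial, map_mul,
    mul_assoc]
  congr 1
  rw [Finsupp.prod_fintype _ _ (fun i => pow_zero _), Finsupp.prod_fintype _ _ (fun i => pow_zero _),
    Fin.prod_univ_succ, map_prod]
  simp only [mul_pow, Fin.cases_zero, Fin.cases_succ, map_one, one_mul, map_pow]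
  rw [Finset.prod_mul_distrib, Finset.prod_pow_eq_pow_sum, mul_left_comm, ← pow_add]
  congr 2
  rw [← hα, Finsupp.degree_eq_sum, Fin.sum_univ_succ]

end REGS

open REGS in
theorem t_REG (hC : COMM) (hE : EVAL) (hU : UNIQ) : REG := by
  intro k _ _ n δ hδ
  -- the lowest degree
  have hex : ∃ d, ∃ α : Fin (n + 1) →₀ ℕ, α.degree = d ∧ coeff α δ ≠ 0 := by
    by_contra hcon
    push Not at hcon
    apply hδ
    ext α
    rw [hcon _ α rfl, map_zero]
  classical
  obtain ⟨α, hα, hαδ⟩ := Nat.find_spec hex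
  have hmin : ∀ β : Fin (n + 1) →₀ ℕ, β.degree < α.degree → coeff β δ = 0 := by
    intro β hβ
    by_contra hne
    rw [hα] at hβ
    exact Nat.find_min hex hβ ⟨β, rfl, hne⟩
  obtain ⟨d, hd⟩ : ∃ d, d = α.degree := ⟨_, rfl⟩
  -- the direction of the line
  obtain ⟨c, hc⟩ : ∃ c : Fin n → k, MvPolynomial.eval c (dh δ d) ≠ 0 := by
    by_contra hcon
    push Not at hcon
    rw [hd] at hcon
    exact dh_ne hαδ (MvPolynomial.funext fun c => by rw [hcon c, map_zero])
  obtain ⟨θ, hθ1, hθ2⟩ := theta hC hE hU c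
  refine ⟨θ, ?_⟩
  rw [← rl_apply]
  obtain ⟨E, hEd⟩ : ∃ E : Rn (n + 1) k →+* PowerSeries k,
    E = rl.comp (θ : Rn (n + 1) k →+* Rn (n + 1) k) := ⟨_, rfl⟩
  have hEa : ∀ f, E f = rl (θ f) := fun f => by rw [hEd]; rfl
  rw [← hEa]
  have hE1 : ∀ a, E (C a) = PowerSeries.C a := fun a => by rw [hEa, hθ1, rl_C]
  have hE2 : ∀ i, E (X i) = PowerSeries.C (Fin.cases (1 : k) c i) * PowerSeries.X := fun i => by
    rw [hEa, hθ2, rl_yy]
  have hE3 := (hU k (PowerSeries k) (Ideal.span {PowerSeries.X}) (n + 1) E (fun i => by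
    rw [hE2]
    exact Ideal.mul_mem_left _ _ (Ideal.mem_span_singleton_self _))).1 (d + 1)
      (δ - (hp δ d : Rn (n + 1) k)) (by
        intro β hβ
        rw [map_sub, coeff_hp]
        split_ifs with h
        · rw [sub_self]
        · rw [sub_zero]
          exact hmin β (by omega))
  rw [Ideal.span_singleton_pow, Ideal.mem_span_singleton, map_sub, val_hp δ d c E hE1 hE2] at hE3
  intro h0
  rw [h0, zero_sub, dvd_neg, PowerSeries.X_pow_dvd_iff] at hE3
  have := hE3 d (by omega)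
  rw [PowerSeries.coeff_C_mul, PowerSeries.coeff_X_pow_self, mul_one] at this
  exact hc this

end Pool.Agent.T2h14.FD
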