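import Pool.Agent.T2h14.FD.Stm

/-! Tasks WEI, CDER, EXT of the project FD (helper85). -/

set_option autoImplicit false

open MvPowerSeries IsLocalRing
open scoped TensorProduct

namespace Pool.Agent.T2h14.FD

theorem t_WEI (h : COMM) : WEI := by
  intro k _ n G hG f
  have := h k n
  have hres : PowerSeries.map (residue (Rn n k)) (finSuccEquiv k n G) ≠ 0 := by
    intro h0
    apply hG
    ext j
    have h1 := congrArg (PowerSeries.coeff j) h0
    rw [PowerSeries.coeff_map, map_zero, residue_eq_zero_iff, mem_maximalIdeal, mem_nonunits_iff,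
      MvPowerSeries.isUnit_iff_constantCoeff, isUnit_iff_ne_zero, not_not] at h1
    rw [PowerSeries.coeff_map, map_zero]
    exact h1
  obtain ⟨q, r, hqr⟩ := PowerSeries.exists_isWeierstrassDivision (finSuccEquiv k n f) hres
  refine ⟨(finSuccEquiv k n).symm q, r, ?_⟩
  apply (finSuccEquiv k n).injective
  rw [map_add, map_mul, AlgEquiv.apply_symm_apply, AlgEquiv.apply_symm_apply]
  exact hqr.eq_mul_add

theorem t_CDER : CDER := by
  intro k _ n d
  let D0 : Rn n k →+ Rn n k :=
    { toFun := fun f => (fun α => d (coeff α f) : Rn n k)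
      map_zero' := by
        ext α
        change d (coeff α 0) = coeff α 0
        rw [map_zero, map_zero]
      map_add' := fun f g => by
        ext α
        change d (coeff α (f + g)) = d (coeff α f) + d (coeff α g)
        rw [map_add, map_add] }
  have hD : ∀ f α, coeff α (D0 f) = d (coeff α f) := fun f α => rfl
  refine ⟨Derivation.mk' D0.toIntLinearMap fun f g => ?_, fun f α => hD f α⟩
  ext α
  classical
  change coeff α (D0 (f * g)) = coeff α (f * D0 g + g * D0 f)
  rw [hD, coeff_mul, map_sum, map_add, coeff_mul, mul_comm g, coeff_mul,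
    ← Finset.sum_add_distrib]
  refine Finset.sum_congr rfl fun x _ => ?_
  rw [hD, hD, Derivation.leibniz, smul_eq_mul, smul_eq_mul]
  ring

theorem t_EXT : EXT := by
  intro k _ n θ
  let M : PowerSeries (Rn n k) ≃+* PowerSeries (Rn n k) :=
    RingEquiv.ofRingHom (PowerSeries.map (θ : Rn n k →+* Rn n k))
      (PowerSeries.map (θ.symm : Rn n k →+* Rn n k))
      (by
        ext f
        simp)
      (by
        ext f
        simp)
  refine ⟨(finSuccEquiv k n).toRingEquiv.trans (M.trans (finSuccEquiv k n).toRingEquiv.symm),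
    fun f j => ?_⟩
  have h1 : finSuccEquiv k n (((finSuccEquiv k n).toRingEquiv.trans
      (M.trans (finSuccEquiv k n).toRingEquiv.symm)) f) = M (finSuccEquiv k n f) := by
    change finSuccEquiv k n ((finSuccEquiv k n).symm (M (finSuccEquiv k n f))) = _
    rw [AlgEquiv.apply_symm_apply]
  rw [h1]
  change PowerSeries.coeff j (PowerSeries.map (θ : Rn n k →+* Rn n k) _) = _
  rw [PowerSeries.coeff_map]
  rfl

end Pool.Agent.T2h14.FD
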